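import Mathlib
import Pool.Agent.H69.PerDefs
import Pool.Agent.H69.Per4

set_option autoImplicit false

namespace Pool.Agent.Results.MP_bd876b_pr.Oscillates

open MeasureTheory Filter Topology Pool.Agent.H69.Per

/-- For some `d ≥ 2` and some law `F` on `Sym(d)`, almost surely `H_n(μ_F)/n` does not converge. -/
theorem result : ∃ (d : ℕ) (_ : NeZero d) (F : PMF (Equiv.Perm (Fin d))), 2 ≤ d ∧
    IsProbabilityMeasure (portraits F) ∧
    ∀ᵐ s ∂(portraits F), ¬ ∃ c : ℝ, Tendsto (fun n : ℕ => H (permuton s) n / n) atTop (𝓝 c) := by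
  obtain ⟨e, he⟩ : ∃ e : ℕ, e = 2 ^ 23 := ⟨_, rfl⟩
  haveI : NeZero (2 * e) := ⟨by rw [he]; norm_num⟩
  refine ⟨2 * e, inferInstance, PMF.pure (sw e), by rw [he]; norm_num,
    by unfold portraits; infer_instance, ?_⟩
  have h : ∀ᵐ s ∂(portraits (PMF.pure (sw e))), ∀ w, s w = sw e := by
    refine ae_all_iff.2 fun w => ?_
    have := (measurePreserving_eval_infinitePi
      (fun _ : List (Fin (2 * e)) => (PMF.pure (sw e)).toMeasure) w).quasiMeasurePreserving.ae
      (p := fun x => x = sw e) (by rw [PMF.toMeasure_pure]; simp)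
    exact this
  filter_upwards [h] with s hs
  have : s = fun _ => sw e := funext hs
  rw [this]
  exact no_limit he

end Pool.Agent.Results.MP_bd876b_pr.Oscillates
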